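import Pool.Agent.D0H83.RG.Fin

/-!
# Random braids with drift are far from all small Jones polynomials

Diagrams (starting library `Pool.Agent.H891R2.Jones.Diagram`): `Diagram P` (oriented link diagrams),
`Diagram.fPoly` (the normalised bracket `(-A^{-3})^{w(D)} ⟨D⟩`). Starting libraries:
`Letter m = Bool × Fin (m - 1)` (the letters `σ_i^{±1}`), `braidClosure N`, `dia O w` (the diagram
obtained by drawing the braid word `w` in the box of `O`), `Pr p n E` (the probability that a word of
`n` independent random letters with the distribution `p` has the property `E`).

`Pool.Agent.D0H83.GD.Defs`: `Reach M F k G` (chains of `k` crossing changes of closed braids and plats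
on at most `M` strands), `nrm g = ∑ |j| |g_j|`. `Pool.Agent.D0H83.RG.Emb`: `emb h x` (the letter `x` of
the braid group on `m` strands read as a letter of the braid group on `N ≥ m` strands).

Proof. The theorem `CrossingChangeDistance` of this folder bounds `4 |e|` for every closed braid near a
small polynomial by twice the sum of the net crossing numbers of the blocks, up to small errors. For the
random walk the permutation of the strands is an irreducible Markov chain; the Poisson equation gives that
in a long block the crossing number of every pair of strands is nearly its mean, which is the same for all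
pairs of strands of the box. So the net crossing number is nearly `|e|`, and an exponential moment bound
for independent blocks finishes the proof.
-/

set_option autoImplicit false

namespace Pool.Agent.Results.MP_42db45_gt.RandomBraidsWithDrift

open Finset LaurentPolynomial Pool.Agent.H891R2.Jones Pool.Agent.W639.RB Pool.Agent.D0H83.GD
  Pool.Agent.D0H83.RG
open Pool.Agent.Y463.SK (dia)
open Pool.Agent.Y463.MP (Pr)

theorem drift_eq {m : ℕ} (p : Letter m → ℝ) : drift p = ∑ i, (p (true, i) - p (false, i)) := by
  unfold drift
  rw [Fintype.sum_prod_type, Fintype.sum_bool, ← Finset.sum_add_distrib]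
  refine Finset.sum_congr rfl fun i _ => ?_
  unfold sn
  simp
  ring

/-- Let `m ≤ N`, let `M` be any number and let `p` be a probability distribution on the letters
`σ_i^{±1}` of the braid group on `m` strands such that `p(σ_i) + p(σ_i⁻¹) > 0` for all `i` and the drift
`∑_i (p(σ_i) - p(σ_i⁻¹))` is not `0`. There are `c > 0` and `C` such that for all `n` the following holds
for a random word `w` of `n` independent letters: the probability that there are a braid word `u` on `N`
strands, a number `k` and a Laurent polynomial `g` with `|u| + k + ‖g‖ ≤ c n` such that `g` can be reached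
from the normalised bracket of the closure of `u·w` (with `w` on the first `m` strands) by `k` crossing
changes of closed braids and plats on at most `M` strands, is at most `C e^{-c n}`. -/
theorem result (m N M : ℕ) (hmN : m ≤ N) (p : Letter m → ℝ) (hp0 : ∀ x, 0 ≤ p x)
    (hp1 : ∑ x, p x = 1) (hirr : ∀ i, 0 < p (true, i) + p (false, i))
    (hd : ∑ i, (p (true, i) - p (false, i)) ≠ 0) :
    ∃ c : ℝ, 0 < c ∧ ∃ C : ℝ, ∀ n : ℕ,
      Pr p n (fun w => ∃ (u : List (Letter N)) (k : ℕ) (g : ℤ[T;T⁻¹]),
        Reach M (dia (braidClosure N) (u ++ (List.ofFn w).map (emb hmN))).fPoly k g ∧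
        ((u.length + k + nrm g : ℕ) : ℝ) ≤ c * n) ≤ C * Real.exp (-(c * n)) := by
  classical
  obtain ⟨c, hc, C, h⟩ := final hmN M hp0 hp1 hirr (by rw [drift_eq]; exact hd)
  refine ⟨c, hc, C, fun n => ?_⟩
  refine le_trans (le_of_eq ?_) (h n)
  rw [← Ex_ofFn]
  unfold Pr
  refine Finset.sum_congr rfl fun w _ => ?_
  split_ifs <;> simp

end Pool.Agent.Results.MP_42db45_gt.RandomBraidsWithDrift
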